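import Pool.Agent.R489.HB.Stm

set_option autoImplicit false

namespace Pool.Agent.R742.HB

open Pool.Agent.R489.HB Classical

variable {V : Type}

/-- the vertices with a neighbour in another class -/
def RR (G : SimpleGraph V) (a : V → Fin 3) : Set V := {u | ∃ w, G.Adj u w ∧ a w ≠ a u}

/-- the vertices whose component is not in one class -/
def Gd (G : SimpleGraph V) (a : V → Fin 3) (u : V) : Prop := ∃ r ∈ RR G a, G.Reachable u r

/-- distance to `RR` -/
noncomputable def DD (G : SimpleGraph V) (a : V → Fin 3) (u : V) : ℕ :=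
  sInf {m : ℕ | ∃ r ∈ RR G a, ∃ p : G.Walk u r, p.length = m}

theorem DD_zero {G : SimpleGraph V} {a : V → Fin 3} {u : V} (h : u ∈ RR G a) : DD G a u = 0 :=
  Nat.le_zero.mp (Nat.sInf_le ⟨u, h, SimpleGraph.Walk.nil, rfl⟩)

theorem DD_step {G : SimpleGraph V} {a : V → Fin 3} {u : V} (h : Gd G a u) (hu : u ∉ RR G a) :
    ∃ v, G.Adj u v ∧ DD G a v < DD G a u := by
  obtain ⟨r, hr, ⟨p⟩⟩ := h
  have hne : {m : ℕ | ∃ r ∈ RR G a, ∃ p : G.Walk u r, p.length = m}.Nonempty :=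
    ⟨p.length, r, hr, p, rfl⟩
  obtain ⟨r', hr', p', hp'⟩ := Nat.sInf_mem hne
  change p'.length = DD G a u at hp'
  cases p' with
  | nil => exact absurd hr' hu
  | cons hadj q =>
    refine ⟨_, hadj, ?_⟩
    have : DD G a _ ≤ q.length := Nat.sInf_le ⟨r', hr', q, rfl⟩
    rw [← hp', SimpleGraph.Walk.length_cons]
    omega

theorem Gd_adj {G : SimpleGraph V} {a : V → Fin 3} {u v : V} (h : Gd G a u) (huv : G.Adj u v) :
    Gd G a v := by
  obtain ⟨r, hr, hur⟩ := h
  exact ⟨r, hr, huv.symm.reachable.trans hur⟩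

theorem Gd_of_ne {G : SimpleGraph V} {a : V → Fin 3} {u v : V} (huv : G.Adj u v)
    (h : a v ≠ a u) : Gd G a u := ⟨u, ⟨v, huv, h⟩, SimpleGraph.Reachable.refl u⟩

/-- the `i`-th part away from the `i`-th class -/
def FF (G : SimpleGraph V) (a : V → Fin 3) (c : V → V → Fin 3) (hc : ∀ u w, c u w = c w u)
    (i : Fin 3) : SimpleGraph V where
  Adj u w := G.Adj u w ∧ c u w = i ∧ a u ≠ i ∧ a w ≠ i
  symm := ⟨fun u w h => ⟨h.1.symm, by rw [hc]; exact h.2.1, h.2.2.2, h.2.2.1⟩⟩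
  loopless := ⟨fun u h => G.loopless.irrefl u h.1⟩

theorem SCH (hroot : S_ROOT) : S_SCH := by
  intro V _ G a c hStr
  obtain ⟨⟨hc, hac⟩, hin, hcls, huniq⟩ := hStr
  -- the first centres
  have hn1 : ∀ u, ∃ v, Gd G a u → G.Adj u v ∧ (∀ w, G.Adj u w → c u w = a u → v = w) ∧
      (a v = a u → DD G a v < DD G a u) := by
    intro u
    by_cases hu : Gd G a u
    · by_cases h1 : ∃ w, G.Adj u w ∧ c u w = a u
      · obtain ⟨w, hw, hw'⟩ := h1
        refine ⟨w, fun _ => ⟨hw, fun w' h h' => huniq (a u) u w w' rfl hw hw' h h', ?_⟩⟩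
        intro h
        exact absurd ⟨rfl, h⟩ (hcls (a u) u w hw hw')
      · by_cases h2 : u ∈ RR G a
        · obtain ⟨w, hw, hw'⟩ := h2
          exact ⟨w, fun _ => ⟨hw, fun w' h h' => absurd ⟨w', h, h'⟩ h1, fun h => absurd h hw'⟩⟩
        · obtain ⟨v, hv, hv'⟩ := DD_step hu h2
          exact ⟨v, fun _ => ⟨hv, fun w' h h' => absurd ⟨w', h, h'⟩ h1, fun _ => hv'⟩⟩
    · exact ⟨u, fun h => absurd h hu⟩
  choose n1 hn1 using hn1
  -- the later centres
  have hF : ∀ i : Fin 3, ∃ (par : V → V) (dep : V → ℕ), ∀ u w, (FF G a c hc i).Adj u w →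
      (par u = w ∧ dep u = dep w + 1) ∨ (par w = u ∧ dep w = dep u + 1) := by
    intro i
    refine hroot V (FF G a c hc i) ((hac i).anti ?_)
    intro u w h
    exact ⟨h.1, h.2.1⟩
  choose par dep hpd using hF
  -- components in one class
  obtain ⟨par0, dep0, h0⟩ := hroot V (inside G a) hin
  have hn0 : ∀ u, ∃ v, (∃ w, G.Adj u w) → G.Adj u v ∧
      (∀ w, G.Adj u w → par0 u = w → v = w) := by
    intro u
    by_cases h : G.Adj u (par0 u)
    · exact ⟨par0 u, fun _ => ⟨h, fun w _ h' => h'⟩⟩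
    · by_cases h1 : ∃ w, G.Adj u w
      · obtain ⟨w, hw⟩ := h1
        exact ⟨w, fun _ => ⟨hw, fun w' h' h'' => absurd (h'' ▸ h') h⟩⟩
      · exact ⟨u, fun h => absurd h h1⟩
  choose n0 hn0 using hn0
  have hins : ∀ u w, ¬ Gd G a u → G.Adj u w → (par0 u = w ∧ dep0 u = dep0 w + 1) ∨
      (par0 w = u ∧ dep0 w = dep0 u + 1) := by
    intro u w hu hw
    refine h0 u w ⟨hw, ?_⟩
    by_contra h
    exact hu (Gd_of_ne hw (fun h' => h h'.symm))
  let A : V → Fin 3 → Prop := fun u i =>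
    (Gd G a u ∧ i = a u) ∨
    (Gd G a u ∧ i ≠ a u ∧ (FF G a c hc i).Adj u (par i u) ∧ dep i u = dep i (par i u) + 1) ∨
    (¬ Gd G a u ∧ (∃ w, G.Adj u w) ∧ i.val = dep0 u % 2)
  let n : V → Fin 3 → V := fun u i => if Gd G a u then (if i = a u then n1 u else par i u)
    else n0 u
  let t : V → Fin 3 → ℝ := fun u i => if Gd G a u then
    (if i = a u then 1 / (8 * (1 + (DD G a u : ℝ))) else 1 / 4 + 1 / (8 * (1 + (dep i u : ℝ))))
    else 1 / 4
  have hnn1 : ∀ u, Gd G a u → n u (a u) = n1 u := fun u hu => by simp [n, hu]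
  have hnn2 : ∀ u i, Gd G a u → i ≠ a u → n u i = par i u := fun u i hu hi => by
    simp [n, hu, hi]
  have hnn3 : ∀ u i, ¬ Gd G a u → n u i = n0 u := fun u i hu => by simp [n, hu]
  have htt1 : ∀ u, Gd G a u → t u (a u) = 1 / (8 * (1 + (DD G a u : ℝ))) := fun u hu => by
    simp [t, hu]
  have htt2 : ∀ u i, Gd G a u → i ≠ a u → t u i = 1 / 4 + 1 / (8 * (1 + (dep i u : ℝ))) :=
    fun u i hu hi => by simp [t, hu, hi]
  have htt3 : ∀ u i, ¬ Gd G a u → t u i = 1 / 4 := fun u i hu => by simp [t, hu]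
  have hpos : ∀ m : ℕ, (0 : ℝ) < 1 / (8 * (1 + (m : ℝ))) := fun m => by positivity
  have hle : ∀ m : ℕ, (1 : ℝ) / (8 * (1 + (m : ℝ))) ≤ 1 / 8 := fun m => by
    apply one_div_le_one_div_of_le (by norm_num)
    have : (0 : ℝ) ≤ (m : ℝ) := Nat.cast_nonneg m
    linarith
  have hlt : ∀ m m' : ℕ, m' < m → (1 : ℝ) / (8 * (1 + (m : ℝ))) < 1 / (8 * (1 + (m' : ℝ))) := by
    intro m m' h
    apply one_div_lt_one_div_of_lt (by positivity)
    have : (m' : ℝ) < m := by exact_mod_cast h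
    linarith
  have hA1 : ∀ u, Gd G a u → A u (a u) := fun u hu => Or.inl ⟨hu, rfl⟩
  -- exactly three cases
  have hadj : ∀ u i, A u i → G.Adj u (n u i) := by
    rintro u i (⟨hu, rfl⟩ | ⟨hu, hi, hF, -⟩ | ⟨hu, hw, -⟩)
    · rw [hnn1 u hu]; exact (hn1 u hu).1
    · rw [hnn2 u i hu hi]; exact hF.1
    · rw [hnn3 u i hu]; exact (hn0 u hw).1
  -- an edge `u w` of the `i`-th part whose ends are not in class `i`
  have hkey : ∀ u w, Gd G a u → G.Adj u w → c u w ≠ a u → c u w ≠ a w →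
      (∃ i j, A u i ∧ n u i = w ∧ A w j ∧ t w j ≤ t u i) ∨
      (∃ i j, A w i ∧ n w i = u ∧ A u j ∧ t u j ≤ t w i) := by
    intro u w hu huw h1 h2
    have hw : Gd G a w := Gd_adj hu huw
    have hFF : (FF G a c hc (c u w)).Adj u w := ⟨huw, rfl, h1.symm, h2.symm⟩
    rcases hpd (c u w) u w hFF with ⟨hp, hd⟩ | ⟨hp, hd⟩
    · left
      refine ⟨c u w, a w, Or.inr (Or.inl ⟨hu, h1, ?_, ?_⟩), ?_, hA1 w hw, ?_⟩
      · rw [hp]; exact hFF
      · rw [hp]; exact hd
      · rw [hnn2 u _ hu h1]; exact hp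
      · rw [htt1 w hw, htt2 u _ hu h1]
        have := hle (DD G a w)
        have := hpos (dep (c u w) u)
        linarith
    · right
      refine ⟨c u w, a u, Or.inr (Or.inl ⟨hw, h2, ?_, ?_⟩), ?_, hA1 u hu, ?_⟩
      · rw [hp]; exact hFF.symm
      · rw [hp]; exact hd
      · rw [hnn2 w _ hw h2]; exact hp
      · rw [htt1 u hu, htt2 w _ hw h2]
        have := hle (DD G a u)
        have := hpos (dep (c u w) w)
        linarith
  -- an edge `u w` of the `i`-th part with `u` in class `i`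
  have hkey2 : ∀ u w, Gd G a u → G.Adj u w → c u w = a u →
      ∃ i j, A u i ∧ n u i = w ∧ A w j ∧ t w j ≤ t u i := by
    intro u w hu huw h1
    have hw : Gd G a w := Gd_adj hu huw
    have hne : a w ≠ a u := fun h => hcls (a u) u w huw h1 ⟨rfl, h⟩
    refine ⟨a u, a w, hA1 u hu, ?_, hA1 w hw, ?_⟩
    · rw [hnn1 u hu]; exact (hn1 u hu).2.1 w huw h1
    · rw [htt1 u hu, htt1 w hw, DD_zero (⟨w, huw, hne⟩ : u ∈ RR G a)]
      have := hle (DD G a w)
      norm_num at this ⊢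
      linarith
  refine ⟨A, n, t, ?_, ?_, ?_, ?_, ?_, ?_⟩
  · exact hadj
  · intro u i
    by_cases hu : Gd G a u
    · by_cases hi : i = a u
      · subst hi; rw [htt1 u hu]; exact hpos _
      · rw [htt2 u i hu hi]; have := hpos (dep i u); linarith
    · rw [htt3 u i hu]; norm_num
  · intro u i
    by_cases hu : Gd G a u
    · by_cases hi : i = a u
      · subst hi; rw [htt1 u hu]; have := hle (DD G a u); linarith
      · rw [htt2 u i hu hi]; have := hle (dep i u); linarith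
    · rw [htt3 u i hu]; norm_num
  · intro u i hA hA'
    have hG := hadj u i hA
    rcases hA with ⟨hu, hi⟩ | ⟨hu, hi, hF, hd⟩ | ⟨hu, hw, hi⟩
    · have hv : Gd G a (n u i) := Gd_adj hu hG
      subst hi
      by_cases h : a u = a (n u (a u))
      · have h1 := htt1 (n u (a u)) hv
        rw [← h] at h1
        rw [h1, htt1 u hu]
        apply hlt
        have h2 := (hn1 u hu).2.2
        rw [← hnn1 u hu] at h2
        exact h2 h.symm
      · rw [htt1 u hu, htt2 _ _ hv h]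
        have := hle (DD G a u)
        have := hpos (dep (a u) (n u (a u)))
        linarith
    · have hv : Gd G a (n u i) := Gd_adj hu hG
      rw [hnn2 u i hu hi] at hv ⊢
      rw [htt2 u i hu hi, htt2 _ _ hv hF.2.2.2.symm]
      have := hlt (dep i u) (dep i (par i u)) (by omega)
      linarith
    · exfalso
      have hv : ¬ Gd G a (n u i) := fun h => hu (Gd_adj h hG.symm)
      have hi' : i.val = dep0 (n u i) % 2 := by
        rcases hA' with ⟨h, -⟩ | ⟨h, -⟩ | ⟨-, -, h⟩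
        · exact absurd h hv
        · exact absurd h hv
        · exact h
      rcases hins u (n u i) hu hG with ⟨-, h⟩ | ⟨-, h⟩ <;> omega
  · intro u w huw
    by_cases hu : Gd G a u
    · exact ⟨a u, hA1 u hu⟩
    · exact ⟨⟨dep0 u % 2, by omega⟩, Or.inr (Or.inr ⟨hu, ⟨w, huw⟩, rfl⟩)⟩
  · intro u w huw
    by_cases hu : Gd G a u
    · by_cases h1 : c u w = a u
      · exact Or.inl (hkey2 u w hu huw h1)
      · by_cases h2 : c u w = a w
        · exact Or.inr (hkey2 w u (Gd_adj hu huw) huw.symm (by rw [hc]; exact h2))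
        · exact hkey u w hu huw h1 h2
    · have hw : ¬ Gd G a w := fun h => hu (Gd_adj h huw.symm)
      have hAu : A u ⟨dep0 u % 2, by omega⟩ := Or.inr (Or.inr ⟨hu, ⟨w, huw⟩, rfl⟩)
      have hAw : A w ⟨dep0 w % 2, by omega⟩ := Or.inr (Or.inr ⟨hw, ⟨u, huw.symm⟩, rfl⟩)
      rcases hins u w hu huw with ⟨hp, -⟩ | ⟨hp, -⟩
      · left
        refine ⟨_, _, hAu, ?_, hAw, ?_⟩
        · rw [hnn3 _ _ hu]; exact (hn0 u ⟨w, huw⟩).2 w huw hp
        · rw [htt3 _ _ hu, htt3 _ _ hw]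
      · right
        refine ⟨_, _, hAw, ?_, hAu, ?_⟩
        · rw [hnn3 _ _ hw]; exact (hn0 w ⟨u, huw.symm⟩).2 u huw.symm hp
        · rw [htt3 _ _ hu, htt3 _ _ hw]

end Pool.Agent.R742.HB
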